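import Pool.Agent.helper37.QX.SpecG

/-! Row FRA of project QX (MP_07c750) -/

set_option autoImplicit false

open scoped MatrixGroups ContDiff Topology
open MeasureTheory ProbabilityTheory Filter Set Polynomial
open Pool.Agent.QU Pool.Agent.RP

namespace Pool.Agent.QX

theorem FRA_one (N : ℕ) : (∑ a : Fin N, Matrix.single a a (1 : ℂ)) = 1 := by
  ext i j
  rw [Matrix.sum_apply, Matrix.one_apply]
  simp only [Matrix.single_apply]
  by_cases h : i = j
  · subst h
    simp
  · rw [if_neg h]
    refine Finset.sum_eq_zero fun k _ => ?_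
    rw [if_neg]
    rintro ⟨h1, h2⟩
    exact h (h1.symm.trans h2)

theorem FRA_pair (N : ℕ) (M : Matrix (Fin N) (Fin N) ℂ) (a b : Fin N) :
    BM (a, b, true) * M * BM (a, b, true) + BM (a, b, false) * M * BM (a, b, false) =
      (1 / 2 : ℂ) • (M b b • Matrix.single a a (1 : ℂ) + M a a • Matrix.single b b (1 : ℂ)) := by
  have h1 : Matrix.single a b (1 : ℂ) * M * Matrix.single b a (1 : ℂ) =
      M b b • Matrix.single a a (1 : ℂ) := by
    rw [Matrix.single_mul_mul_single, Matrix.smul_single]
    simp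
  have h2 : Matrix.single b a (1 : ℂ) * M * Matrix.single a b (1 : ℂ) =
      M a a • Matrix.single b b (1 : ℂ) := by
    rw [Matrix.single_mul_mul_single, Matrix.smul_single]
    simp
  rw [← h1, ← h2]
  unfold BM
  simp only [if_true, Bool.false_eq_true, if_false, Matrix.smul_mul, Matrix.mul_smul,
    Matrix.add_mul, Matrix.mul_add, Matrix.sub_mul, Matrix.mul_sub, smul_sub, smul_add, smul_smul]
  have hI : Complex.I / 2 * (Complex.I / 2) = -(1 / 4) := by
    rw [div_mul_div_comm, Complex.I_mul_I]
    norm_num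
  rw [hI]
  module

theorem FRA_pair2 (N : ℕ) (M : Matrix (Fin N) (Fin N) ℂ) (a b : Fin N) :
    (BM (a, b, true) * M).trace • BM (a, b, true) + (BM (a, b, false) * M).trace • BM (a, b, false) =
      (1 / 2 : ℂ) • (M b a • Matrix.single b a (1 : ℂ) + M a b • Matrix.single a b (1 : ℂ)) := by
  unfold BM
  simp only [if_true, Bool.false_eq_true, if_false, Matrix.smul_mul, Matrix.trace_smul,
    Matrix.add_mul, Matrix.sub_mul, Matrix.trace_add, Matrix.trace_sub, Matrix.trace_single_mul,
    one_mul, smul_smul, smul_eq_mul]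
  have hI : Complex.I / 2 * (M b a - M a b) * (Complex.I / 2) = -(1 / 4) * (M b a - M a b) := by
    have : Complex.I / 2 * (M b a - M a b) * (Complex.I / 2) =
      (Complex.I * Complex.I) / 4 * (M b a - M a b) := by ring
    rw [this, Complex.I_mul_I]
    ring
  rw [hI]
  module

theorem FRA : FRA_stmt := by
  intro N M
  refine ⟨?_, ?_⟩
  · simp only [Fintype.sum_prod_type, Fintype.sum_bool]
    simp only [FRA_pair]
    have h1 : ∀ a : Fin N, ∑ b : Fin N, (1 / 2 : ℂ) • (M b b • Matrix.single a a (1 : ℂ) +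
        M a a • Matrix.single b b (1 : ℂ)) =
        (1 / 2 : ℂ) • (M.trace • Matrix.single a a (1 : ℂ) + M a a • (1 : Matrix (Fin N) (Fin N) ℂ)) := by
      intro a
      rw [← Finset.smul_sum, Finset.sum_add_distrib, ← Finset.sum_smul, ← Finset.smul_sum, FRA_one]
      rfl
    rw [Finset.sum_congr rfl fun a _ => h1 a, ← Finset.smul_sum, Finset.sum_add_distrib,
      ← Finset.smul_sum, FRA_one, ← Finset.sum_smul]
    have h2 : (∑ a : Fin N, M a a) = M.trace := rfl
    rw [h2]
    module
  · simp only [Fintype.sum_prod_type, Fintype.sum_bool]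
    simp only [FRA_pair2]
    simp only [smul_add, Finset.sum_add_distrib]
    have h3 : ∀ x : Matrix (Fin N) (Fin N) ℂ, (∑ a : Fin N, ∑ b : Fin N, x a b • Matrix.single a b (1 : ℂ)) = x := by
      intro x
      have h := (Matrix.matrix_eq_sum_single x).symm
      simpa [Matrix.smul_single] using h
    have h4 : (∑ a : Fin N, ∑ b : Fin N, (1 / 2 : ℂ) • M b a • Matrix.single b a (1 : ℂ)) =
        (1 / 2 : ℂ) • M := by
      rw [Finset.sum_comm]
      simp only [← Finset.smul_sum]
      rw [h3]
    have h5 : (∑ a : Fin N, ∑ b : Fin N, (1 / 2 : ℂ) • M a b • Matrix.single a b (1 : ℂ)) =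
        (1 / 2 : ℂ) • M := by
      simp only [← Finset.smul_sum]
      rw [h3]
    rw [h4, h5]
    module

end Pool.Agent.QX
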