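import Pool.Agent.helper37.QX.SpecG

/-! Row HSN of project QX (MP_07c750) -/

set_option autoImplicit false

open scoped MatrixGroups ContDiff Topology
open MeasureTheory ProbabilityTheory Filter Set Polynomial
open Pool.Agent.QU Pool.Agent.RP

namespace Pool.Agent.QX

theorem HSN_clm {N : ℕ} (M : Matrix (Fin N) (Fin N) ℂ) (v : EuclideanSpace ℂ (Fin N)) (i : Fin N) :
    Matrix.toEuclideanCLM (n := Fin N) (𝕜 := ℂ) M v i = ∑ j, M i j * v j := by
  rfl

/-- the operator norm is at most the Hilbert-Schmidt norm -/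
theorem HSN_hs {N : ℕ} (M : Matrix (Fin N) (Fin N) ℂ) (v : EuclideanSpace ℂ (Fin N)) :
    ‖Matrix.toEuclideanCLM (n := Fin N) (𝕜 := ℂ) M v‖ ^ 2 ≤ (∑ i, ∑ j, ‖M i j‖ ^ 2) * ‖v‖ ^ 2 := by
  rw [EuclideanSpace.norm_sq_eq, EuclideanSpace.norm_sq_eq, Finset.sum_mul]
  refine Finset.sum_le_sum fun i _ => ?_
  rw [HSN_clm]
  have h1 : ‖∑ j, M i j * v j‖ ≤ ∑ j, ‖M i j‖ * ‖v j‖ := by
    refine (norm_sum_le _ _).trans (le_of_eq ?_)
    refine Finset.sum_congr rfl fun j _ => ?_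
    rw [norm_mul]
  calc ‖∑ j, M i j * v j‖ ^ 2 ≤ (∑ j, ‖M i j‖ * ‖v j‖) ^ 2 :=
        pow_le_pow_left₀ (norm_nonneg _) h1 2
    _ ≤ (∑ j, ‖M i j‖ ^ 2) * ∑ j, ‖v j‖ ^ 2 := Finset.sum_mul_sq_le_sq_mul_sq _ _ _

theorem HSN_tr {N : ℕ} (M : Matrix (Fin N) (Fin N) ℂ) (hM : star M = M) :
    (M * M).trace = ((∑ i, ∑ j, ‖M i j‖ ^ 2 : ℝ) : ℂ) := by
  rw [Matrix.trace, Complex.ofReal_sum]
  refine Finset.sum_congr rfl fun i _ => ?_
  rw [Matrix.diag_apply, Matrix.mul_apply, Complex.ofReal_sum]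
  refine Finset.sum_congr rfl fun j _ => ?_
  have h1 : M j i = star (M i j) := by
    have h2 := congrFun (congrFun hM j) i
    rw [← h2]
    rfl
  rw [h1, Complex.star_def, Complex.mul_conj]
  rw [Complex.normSq_eq_norm_sq]

theorem HSN (hFRA : FRA_stmt) : HSN_stmt := by
  intro N x v
  set M : Matrix (Fin N) (Fin N) ℂ := ∑ p, (x p : ℂ) • BM p with hMdef
  have hM : star M = M := by
    rw [hMdef, star_sum]
    refine Finset.sum_congr rfl fun p _ => ?_
    rw [star_smul, BM_herm]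
    simp
  have ht : ∀ p : Fin N × Fin N × Bool, (((BM p * M).trace.re : ℝ) : ℂ) = (BM p * M).trace := by
    intro p
    apply Complex.conj_eq_iff_re.1
    have h1 : (starRingEnd ℂ) (BM p * M).trace = (star (BM p * M)).trace := by
      rw [Matrix.star_eq_conjTranspose, Matrix.trace_conjTranspose]
      rfl
    rw [h1, star_mul, hM, BM_herm, Matrix.trace_mul_comm]
  set T : ℝ := ∑ i, ∑ j, ‖M i j‖ ^ 2 with hT
  have e1 : T = ∑ p, x p * (BM p * M).trace.re := by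
    have h1 : ((T : ℝ) : ℂ) = ∑ p, (x p : ℂ) * (BM p * M).trace := by
      rw [← HSN_tr M hM]
      conv_lhs => rw [hMdef, Finset.sum_mul, Matrix.trace_sum]
      refine Finset.sum_congr rfl fun p _ => ?_
      rw [Matrix.smul_mul, Matrix.trace_smul, smul_eq_mul]
    apply Complex.ofReal_injective
    rw [h1, Complex.ofReal_sum]
    refine Finset.sum_congr rfl fun p _ => ?_
    rw [Complex.ofReal_mul, ht p]
  have e2 : T = ∑ p, (BM p * M).trace.re ^ 2 := by
    have h1 : ((T : ℝ) : ℂ) = ∑ p, (BM p * M).trace * (BM p * M).trace := by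
      rw [← HSN_tr M hM]
      have h2 := (hFRA N M).2
      conv_lhs => rw [← h2, h2, ← h2, Finset.sum_mul, Matrix.trace_sum]
      refine Finset.sum_congr rfl fun p _ => ?_
      rw [h2, Matrix.smul_mul, Matrix.trace_smul, smul_eq_mul]
    apply Complex.ofReal_injective
    rw [h1, Complex.ofReal_sum]
    refine Finset.sum_congr rfl fun p _ => ?_
    rw [Complex.ofReal_pow, ht p, sq]
  have e3 : T ≤ ∑ p, x p ^ 2 := by
    have h1 : 0 ≤ ∑ p, (x p - (BM p * M).trace.re) ^ 2 :=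
      Finset.sum_nonneg fun p _ => sq_nonneg _
    have h2 : ∑ p, (x p - (BM p * M).trace.re) ^ 2 =
        ∑ p, x p ^ 2 - 2 * ∑ p, x p * (BM p * M).trace.re + ∑ p, (BM p * M).trace.re ^ 2 := by
      rw [Finset.mul_sum, ← Finset.sum_sub_distrib, ← Finset.sum_add_distrib]
      refine Finset.sum_congr rfl fun p _ => ?_
      ring
    rw [h2, ← e1, ← e2] at h1
    linarith
  have h5 := HSN_hs M v
  rw [← hT] at h5
  have h6 : ‖Matrix.toEuclideanCLM (n := Fin N) (𝕜 := ℂ) M v‖ ^ 2 ≤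
      (Real.sqrt (∑ p, x p ^ 2) * ‖v‖) ^ 2 := by
    rw [mul_pow, Real.sq_sqrt (Finset.sum_nonneg fun p _ => sq_nonneg _)]
    exact h5.trans (mul_le_mul_of_nonneg_right e3 (sq_nonneg _))
  exact (abs_le_of_sq_le_sq' h6 (mul_nonneg (Real.sqrt_nonneg _) (norm_nonneg _))).2

end Pool.Agent.QX
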