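import Pool.Agent.helper37.QX.SpecG

/-! Row ULP of project QX (MP_07c750) -/

set_option autoImplicit false

open scoped MatrixGroups ContDiff Topology
open MeasureTheory ProbabilityTheory Filter Set Polynomial
open Pool.Agent.QU Pool.Agent.RP

namespace Pool.Agent.QX

section gen

variable {E : Type} [NormedAddCommGroup E] [InnerProductSpace ℂ E]

theorem ULP_mul (g h g' h' : E ≃ₗᵢ[ℂ] E) (K L : ℝ) (hg : ∀ v, ‖g v - g' v‖ ≤ K * ‖v‖)
    (hh : ∀ v, ‖h v - h' v‖ ≤ L * ‖v‖) : ∀ v, ‖(g * h) v - (g' * h') v‖ ≤ (K + L) * ‖v‖ := by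
  intro v
  have e : (g * h) v - (g' * h') v = g (h v - h' v) + (g (h' v) - g' (h' v)) := by
    rw [map_sub]
    simp only [LinearIsometryEquiv.coe_mul, Function.comp_apply]
    abel
  rw [e]
  have h1 : ‖g (h v - h' v)‖ ≤ L * ‖v‖ := by
    rw [LinearIsometryEquiv.norm_map]
    exact hh v
  have h2 : ‖g (h' v) - g' (h' v)‖ ≤ K * ‖v‖ := by
    have := hg (h' v)
    rwa [LinearIsometryEquiv.norm_map] at this
  calc _ ≤ ‖g (h v - h' v)‖ + ‖g (h' v) - g' (h' v)‖ := norm_add_le _ _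
    _ ≤ (K + L) * ‖v‖ := by linarith

theorem ULP_inv (g g' : E ≃ₗᵢ[ℂ] E) (K : ℝ) (hg : ∀ v, ‖g v - g' v‖ ≤ K * ‖v‖) :
    ∀ v, ‖g⁻¹ v - g'⁻¹ v‖ ≤ K * ‖v‖ := by
  intro v
  have e1 : ∀ (f : E ≃ₗᵢ[ℂ] E) (u : E), f (f⁻¹ u) = u := by
    intro f u
    have := congrArg (fun k : E ≃ₗᵢ[ℂ] E => k u) (mul_inv_cancel f)
    exact this
  have h1 : ‖g (g⁻¹ v - g'⁻¹ v)‖ = ‖g (g'⁻¹ v) - g' (g'⁻¹ v)‖ := by
    rw [map_sub, e1, e1, ← norm_neg]
    congr 1
    abel
  rw [LinearIsometryEquiv.norm_map] at h1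
  rw [h1]
  have h2 := hg (g'⁻¹ v)
  rwa [LinearIsometryEquiv.norm_map] at h2

theorem ULP_word (ρ σ : F2 →* (E ≃ₗᵢ[ℂ] E)) (K : ℝ)
    (hg : ∀ (a : Fin 2) (v : E), ‖ρ (FreeGroup.of a) v - σ (FreeGroup.of a) v‖ ≤ K * ‖v‖)
    (L : List (Fin 2 × Bool)) :
    ∀ v, ‖ρ (FreeGroup.mk L) v - σ (FreeGroup.mk L) v‖ ≤ (K * L.length) * ‖v‖ := by
  induction L with
  | nil =>
    intro v
    have e : (FreeGroup.mk [] : F2) = 1 := rfl
    rw [e, map_one, map_one]
    simp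
  | cons t L ih =>
    intro v
    have e : (FreeGroup.mk (t :: L) : F2) = FreeGroup.mk [t] * FreeGroup.mk L := by
      rw [FreeGroup.mul_mk]
      rfl
    rw [e, map_mul, map_mul]
    have ht : ∀ v, ‖ρ (FreeGroup.mk [t]) v - σ (FreeGroup.mk [t]) v‖ ≤ K * ‖v‖ := by
      rcases t with ⟨a, b⟩
      cases b
      · have e2 : (FreeGroup.mk [(a, false)] : F2) = (FreeGroup.of a)⁻¹ := rfl
        rw [e2, map_inv, map_inv]
        exact ULP_inv _ _ K (hg a)
      · exact hg a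
    have h := ULP_mul _ _ _ _ K _ ht ih v
    refine h.trans (le_of_eq ?_)
    rw [List.length_cons]
    push_cast
    ring

end gen

/-- one exponential -/
theorem ULP_one (hHSN : HSN_stmt) (hXLP : XLP_stmt) (N : ℕ) (c : ℝ) (x y : GI N → ℝ) (i : Fin 4)
    (v : EuclideanSpace ℂ (Fin N)) :
    ‖isoU N (EU c x i) v - isoU N (EU c y i) v‖ ≤
      (|c| / Real.sqrt N * Real.sqrt (∑ i, (x i - y i) ^ 2)) * ‖v‖ := by
  have e1 : isoU N (EU c x i) v - isoU N (EU c y i) v =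
      Matrix.toEuclideanCLM (n := Fin N) (𝕜 := ℂ) (NormedSpace.exp (Complex.I • ((c : ℂ) • XM x i)) -
        NormedSpace.exp (Complex.I • ((c : ℂ) • XM y i))) v := by
    rw [map_sub, ContinuousLinearMap.sub_apply, smul_smul, smul_smul]
    rfl
  rw [e1]
  have hst : ∀ z : GI N → ℝ, star ((c : ℂ) • XM z i) = (c : ℂ) • XM z i := by
    intro z
    rw [star_smul, XM_herm]
    simp
  refine hXLP N _ _ _ (hst x) (hst y) (by positivity) ?_ v
  intro u
  have e2 : (c : ℂ) • XM x i - (c : ℂ) • XM y i = ((c : ℂ) * ((Real.sqrt N)⁻¹ : ℂ)) •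
      ∑ p : Fin N × Fin N × Bool, (((x (i, p) - y (i, p) : ℝ)) : ℂ) • BM p := by
    unfold XM
    rw [smul_smul, smul_smul, ← smul_sub, ← Finset.sum_sub_distrib]
    congr 1
    refine Finset.sum_congr rfl fun p _ => ?_
    rw [← sub_smul, Complex.ofReal_sub]
  rw [e2, map_smul, ContinuousLinearMap.smul_apply, norm_smul]
  have h1 := hHSN N (fun p => x (i, p) - y (i, p)) u
  have h2 : ‖(c : ℂ) * ((Real.sqrt N)⁻¹ : ℂ)‖ = |c| / Real.sqrt N := by
    rw [norm_mul, norm_inv, Complex.norm_real, Complex.norm_real, Real.norm_eq_abs, Real.norm_eq_abs,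
      abs_of_nonneg (Real.sqrt_nonneg _)]
    rfl
  have h3 : ∑ p : Fin N × Fin N × Bool, (x (i, p) - y (i, p)) ^ 2 ≤ ∑ j, (x j - y j) ^ 2 := by
    rw [Fintype.sum_prod_type (f := fun j : GI N => (x j - y j) ^ 2)]
    exact Finset.single_le_sum (f := fun i : Fin 4 => ∑ p : Fin N × Fin N × Bool,
      (x (i, p) - y (i, p)) ^ 2) (fun k _ => Finset.sum_nonneg fun p _ => sq_nonneg _)
      (Finset.mem_univ i)
  rw [h2, mul_assoc]
  refine mul_le_mul_of_nonneg_left ?_ (by positivity)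
  exact h1.trans (mul_le_mul_of_nonneg_right (Real.sqrt_le_sqrt h3) (norm_nonneg _))

theorem ULP (hHSN : HSN_stmt) (hXLP : XLP_stmt) : ULP_stmt := by
  intro N c x y w v hN
  set κ : ℝ := |c| / Real.sqrt N * Real.sqrt (∑ i, (x i - y i) ^ 2) with hκ
  have h1 : ∀ (a : Fin 2) (v : EuclideanSpace ℂ (Fin N)),
      ‖UR c x (FreeGroup.of a) v - UR c y (FreeGroup.of a) v‖ ≤ (2 * κ) * ‖v‖ := by
    intro a u
    have hm : ∀ i j : Fin 4, ‖isoU N (EU c x i * EU c x j) u - isoU N (EU c y i * EU c y j) u‖ ≤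
        (2 * κ) * ‖u‖ := by
      intro i j
      rw [map_mul, map_mul]
      have := ULP_mul _ _ _ _ κ κ (ULP_one hHSN hXLP N c x y i) (ULP_one hHSN hXLP N c x y j) u
      refine this.trans (le_of_eq ?_)
      ring
    have e : ∀ z : GI N → ℝ, UR c z (FreeGroup.of a) =
        isoU N ((![EU c z 0 * EU c z 1, EU c z 2 * EU c z 3] : Fin 2 → _) a) := by
      intro z
      unfold UR UG
      rw [MonoidHom.comp_apply, FreeGroup.lift_apply_of]
    rw [e, e]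
    fin_cases a
    · exact hm 0 1
    · exact hm 2 3
  have h2 := ULP_word (UR c x) (UR c y) (2 * κ) h1 w.toWord v
  rw [FreeGroup.mk_toWord] at h2
  refine h2.trans (le_of_eq ?_)
  have e3 : (w.toWord.length : ℝ) = (w.norm : ℝ) := rfl
  rw [e3, hκ]
  ring

end Pool.Agent.QX
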