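import Pool.Agent.helper37.QX.SpecG

/-! Row XLP of project QX (MP_07c750) -/

set_option autoImplicit false

open scoped MatrixGroups ContDiff Topology
open MeasureTheory ProbabilityTheory Filter Set Polynomial
open Pool.Agent.QU Pool.Agent.RP

namespace Pool.Agent.QX

section abs

variable {𝔸 : Type} [NormedRing 𝔸] [StarRing 𝔸] [CStarRing 𝔸] [NormedAlgebra ℂ 𝔸] [StarModule ℂ 𝔸]
  [CompleteSpace 𝔸]

theorem XLP_unit (A : 𝔸) (hA : star A = A) (s : ℝ) :
    NormedSpace.exp (s • (Complex.I • A)) ∈ unitary 𝔸 := by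
  letI : NormedAlgebra ℚ 𝔸 := .restrictScalars ℚ ℂ 𝔸
  refine NormedSpace.exp_mem_unitary_of_mem_skewAdjoint ?_
  rw [skewAdjoint.mem_iff, ← Complex.coe_smul, star_smul, star_smul, hA]
  simp

theorem XLP_abs (A B : 𝔸) (hA : star A = A) (hB : star B = B) :
    ‖NormedSpace.exp (Complex.I • A) - NormedSpace.exp (Complex.I • B)‖ ≤ ‖A - B‖ := by
  letI : NormedAlgebra ℚ 𝔸 := .restrictScalars ℚ ℂ 𝔸
  set g : ℝ → 𝔸 := fun s => NormedSpace.exp (s • (Complex.I • A)) *
    NormedSpace.exp ((1 - s) • (Complex.I • B)) with hg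
  set g' : ℝ → 𝔸 := fun s => NormedSpace.exp (s • (Complex.I • A)) * ((Complex.I • (A - B)) *
    NormedSpace.exp ((1 - s) • (Complex.I • B))) with hg'
  have h1 : ∀ s, HasDerivAt g (g' s) s := by
    intro s
    have d1 := hasDerivAt_exp_smul_const (𝕂 := ℝ) (Complex.I • A) s
    have d2 : HasDerivAt (fun u : ℝ => NormedSpace.exp ((1 - u) • (Complex.I • B)))
        ((-1 : ℝ) • ((Complex.I • B) * NormedSpace.exp ((1 - s) • (Complex.I • B)))) s := by
      have d3 := hasDerivAt_exp_smul_const' (𝕂 := ℝ) (Complex.I • B) (1 - s)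
      have d4 : HasDerivAt (fun u : ℝ => 1 - u) (-1) s := by
        simpa using (hasDerivAt_id s).const_sub 1
      exact HasDerivAt.scomp s d3 d4
    have d5 := d1.mul d2
    have e : g' s = NormedSpace.exp (s • (Complex.I • A)) * (Complex.I • A) *
        NormedSpace.exp ((1 - s) • (Complex.I • B)) + NormedSpace.exp (s • (Complex.I • A)) *
        ((-1 : ℝ) • ((Complex.I • B) * NormedSpace.exp ((1 - s) • (Complex.I • B)))) := by
      rw [hg', neg_one_smul]
      simp only [smul_sub, sub_mul, mul_sub, mul_neg, mul_assoc]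
      abel
    rw [e]
    exact d5
  have h2 : ∀ s, ‖g' s‖ = ‖A - B‖ := by
    intro s
    rw [hg']
    simp only
    rw [CStarRing.norm_mem_unitary_mul _ (XLP_unit A hA s),
      CStarRing.norm_mul_mem_unitary _ (XLP_unit B hB (1 - s)), norm_smul, Complex.norm_I, one_mul]
  have h3 := norm_image_sub_le_of_norm_deriv_le_segment_01' (f := g) (f' := g') (C := ‖A - B‖)
    (fun x _ => (h1 x).hasDerivWithinAt) (fun x _ => (h2 x).le)
  have e1 : g 1 = NormedSpace.exp (Complex.I • A) := by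
    rw [hg]
    simp
  have e0 : g 0 = NormedSpace.exp (Complex.I • B) := by
    rw [hg]
    simp
  rw [e1, e0] at h3
  exact h3

end abs

open scoped Matrix.Norms.L2Operator in
theorem XLP_mat (N : ℕ) (A B : Matrix (Fin N) (Fin N) ℂ) (hA : star A = A) (hB : star B = B) :
    ‖Matrix.toEuclideanCLM (n := Fin N) (𝕜 := ℂ) (NormedSpace.exp (Complex.I • A) -
    NormedSpace.exp (Complex.I • B))‖ ≤ ‖Matrix.toEuclideanCLM (n := Fin N) (𝕜 := ℂ) (A - B)‖ :=
  XLP_abs A B hA hB

theorem XLP : XLP_stmt := by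
  intro N A B K hA hB hK h v
  have h1 : ‖Matrix.toEuclideanCLM (n := Fin N) (𝕜 := ℂ) (A - B)‖ ≤ K :=
    ContinuousLinearMap.opNorm_le_bound _ hK h
  exact (ContinuousLinearMap.le_opNorm _ v).trans
    (mul_le_mul_of_nonneg_right ((XLP_mat N A B hA hB).trans h1) (norm_nonneg v))

end Pool.Agent.QX
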