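import Pool.Agent.helper4.QX.SpecF

set_option autoImplicit false

/-!
# Project QX (MP_07c750), row qf:EKY: the key inequality with a polynomial constant
-/

open scoped MatrixGroups ContDiff Topology UpperHalfPlane
open UpperHalfPlane MeasureTheory ProbabilityTheory Filter Set Polynomial
open Pool.Agent.QU Pool.Agent.RP

namespace Pool.Agent.QX

theorem EKY_amgm (a x t y : ℝ) (ha : 0 ≤ a) (hx : 0 ≤ x) (ht : 0 < t) (h : y ^ 4 ≤ x * a ^ 3) :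
    y ≤ t * a + x / t ^ 3 := by
  by_contra hcon
  push Not at hcon
  have hp : 0 ≤ t * a := by positivity
  have hq : 0 ≤ x / t ^ 3 := by positivity
  have h1 : (t * a + x / t ^ 3) ^ 4 < y ^ 4 := pow_lt_pow_left₀ hcon (by positivity) (by norm_num)
  have h2 : 4 * (t * a) ^ 3 * (x / t ^ 3) ≤ (t * a + x / t ^ 3) ^ 4 := by
    have e : (t * a + x / t ^ 3) ^ 4 - 4 * (t * a) ^ 3 * (x / t ^ 3) = (t * a) ^ 4 +
        6 * (t * a) ^ 2 * (x / t ^ 3) ^ 2 + 4 * (t * a) * (x / t ^ 3) ^ 3 + (x / t ^ 3) ^ 4 := by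
      ring
    have : 0 ≤ (t * a) ^ 4 + 6 * (t * a) ^ 2 * (x / t ^ 3) ^ 2 + 4 * (t * a) * (x / t ^ 3) ^ 3 +
      (x / t ^ 3) ^ 4 := by positivity
    linarith
  have h3 : 4 * (t * a) ^ 3 * (x / t ^ 3) = 4 * (x * a ^ 3) := by
    field_simp
  have h4 : 0 ≤ x * a ^ 3 := by positivity
  linarith

theorem EKY_hi (B δ a n μ L : ℝ) (hB : 0 ≤ B) (hδ : 0 < δ) (ha : 0 ≤ a) (hn : 0 ≤ n)
    (hL : 0 ≤ L) (hμ : 5 / 4 + (8 * B / δ) ^ 2 ≤ μ) :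
    B * (Real.sqrt (L / Real.sqrt μ * (Real.sqrt n * Real.sqrt a)) * Real.sqrt a +
      a / Real.sqrt μ) ≤ δ / 4 * a + 1024 * (B + 1) ^ 4 / δ ^ 3 * (L ^ 2 / (1 + μ)) * n := by
  have hμ0 : 5 / 4 ≤ μ := by
    have := sq_nonneg (8 * B / δ)
    linarith
  have hμp : 0 < μ := by linarith
  have hsμ : 0 < Real.sqrt μ := Real.sqrt_pos.2 hμp
  have hsq : Real.sqrt μ ^ 2 = μ := Real.sq_sqrt hμp.le
  have hsa : Real.sqrt a ^ 2 = a := Real.sq_sqrt ha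
  have hsn : Real.sqrt n ^ 2 = n := Real.sq_sqrt hn
  -- second term
  have h1 : 8 * B / δ ≤ Real.sqrt μ := by
    refine Real.le_sqrt_of_sq_le ?_
    linarith
  have h2 : B * (a / Real.sqrt μ) ≤ δ / 8 * a := by
    rw [← mul_div_assoc, div_le_iff₀ hsμ]
    rw [div_le_iff₀ hδ] at h1
    nlinarith
  -- first term
  set y := Real.sqrt (L / Real.sqrt μ * (Real.sqrt n * Real.sqrt a)) * Real.sqrt a with hy
  set x := L ^ 2 / μ * n with hx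
  have hx0 : 0 ≤ x := by positivity
  have hy4 : y ^ 4 ≤ x * a ^ 3 := by
    have e1 : 0 ≤ L / Real.sqrt μ * (Real.sqrt n * Real.sqrt a) := by positivity
    have e2 : y ^ 2 = L / Real.sqrt μ * (Real.sqrt n * Real.sqrt a) * a := by
      rw [hy, mul_pow, Real.sq_sqrt e1, hsa]
    have e3 : y ^ 4 = (y ^ 2) ^ 2 := by ring
    rw [e3, e2]
    have e4 : (L / Real.sqrt μ * (Real.sqrt n * Real.sqrt a) * a) ^ 2 =
        L ^ 2 / Real.sqrt μ ^ 2 * (Real.sqrt n ^ 2 * Real.sqrt a ^ 2) * a ^ 2 := by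
      rw [mul_pow, mul_pow, div_pow, mul_pow]
    rw [e4, hsq, hsa, hsn, hx]
    refine le_of_eq ?_
    ring
  have ht : 0 < δ / (8 * (B + 1)) := by positivity
  have h3 := EKY_amgm a x (δ / (8 * (B + 1))) y ha hx0 ht hy4
  have h4 : B * y ≤ δ / 8 * a + 512 * (B + 1) ^ 4 / δ ^ 3 * x := by
    have e1 : B * (δ / (8 * (B + 1)) * a) ≤ δ / 8 * a := by
      have e2 : B * (δ / (8 * (B + 1)) * a) = B / (B + 1) * (δ / 8 * a) := by
        field_simp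
      rw [e2]
      have e3 : B / (B + 1) ≤ 1 := by
        rw [div_le_one (by positivity)]
        linarith
      have e4 : 0 ≤ δ / 8 * a := by positivity
      calc B / (B + 1) * (δ / 8 * a) ≤ 1 * (δ / 8 * a) := mul_le_mul_of_nonneg_right e3 e4
        _ = _ := one_mul _
    have e5 : B * (x / (δ / (8 * (B + 1))) ^ 3) ≤ 512 * (B + 1) ^ 4 / δ ^ 3 * x := by
      have e6 : B * (x / (δ / (8 * (B + 1))) ^ 3) = B * (512 * (B + 1) ^ 3 / δ ^ 3 * x) := by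
        field_simp
        ring
      have e7 : 512 * (B + 1) ^ 4 / δ ^ 3 * x = (B + 1) * (512 * (B + 1) ^ 3 / δ ^ 3 * x) := by
        ring
      rw [e6, e7]
      refine mul_le_mul_of_nonneg_right (by linarith) (by positivity)
    calc B * y ≤ B * (δ / (8 * (B + 1)) * a + x / (δ / (8 * (B + 1))) ^ 3) :=
          mul_le_mul_of_nonneg_left h3 hB
      _ = B * (δ / (8 * (B + 1)) * a) + B * (x / (δ / (8 * (B + 1))) ^ 3) := by ring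
      _ ≤ _ := add_le_add e1 e5
  have h5 : x ≤ 2 * (L ^ 2 / (1 + μ) * n) := by
    rw [hx]
    have e1 : L ^ 2 / μ ≤ 2 * (L ^ 2 / (1 + μ)) := by
      rw [← mul_div_assoc, div_le_div_iff₀ hμp (by linarith)]
      nlinarith [sq_nonneg L]
    calc L ^ 2 / μ * n ≤ 2 * (L ^ 2 / (1 + μ)) * n := mul_le_mul_of_nonneg_right e1 hn
      _ = _ := by ring
  have h6 : 512 * (B + 1) ^ 4 / δ ^ 3 * x ≤ 512 * (B + 1) ^ 4 / δ ^ 3 * (2 * (L ^ 2 / (1 + μ) * n)) :=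
    mul_le_mul_of_nonneg_left h5 (by positivity)
  calc B * (y + a / Real.sqrt μ) = B * y + B * (a / Real.sqrt μ) := by ring
    _ ≤ (δ / 8 * a + 512 * (B + 1) ^ 4 / δ ^ 3 * x) + δ / 8 * a := add_le_add h4 h2
    _ ≤ (δ / 8 * a + 512 * (B + 1) ^ 4 / δ ^ 3 * (2 * (L ^ 2 / (1 + μ) * n))) + δ / 8 * a := by
        linarith
    _ = _ := by ring

/-- bounds for small `μ` -/
theorem EKY_mu (B b δ μ : ℝ) (hδ : 0 < δ) (hδ1 : δ ≤ 1) (hB : 0 ≤ B) (hBb : B ≤ b / δ ^ 10)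
    (hμ : μ ≤ 5 / 4 + (8 * B / δ) ^ 2) : 1 + μ ≤ (9 / 4 + 64 * b ^ 2) / δ ^ 22 := by
  have hD : 0 < δ ^ 22 := by positivity
  rw [le_div_iff₀ hD]
  have h1 : B * δ ^ 10 ≤ b := (le_div_iff₀ (by positivity)).1 hBb
  have h2 : (B * δ ^ 10) ^ 2 ≤ b ^ 2 := pow_le_pow_left₀ (by positivity) h1 2
  have h3 : (8 * B / δ) ^ 2 * δ ^ 22 = 64 * (B * δ ^ 10) ^ 2 := by
    field_simp
    ring
  have h4 : δ ^ 22 ≤ 1 := pow_le_one₀ hδ.le hδ1
  calc (1 + μ) * δ ^ 22 ≤ (9 / 4 + (8 * B / δ) ^ 2) * δ ^ 22 := by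
        refine mul_le_mul_of_nonneg_right ?_ hD.le
        linarith
    _ = 9 / 4 * δ ^ 22 + (8 * B / δ) ^ 2 * δ ^ 22 := by ring
    _ ≤ _ := by
        rw [h3]
        linarith

theorem EKY_wt (m₁ D μ : ℝ) (hD : 0 < D) (hm : 0 < m₁) (hμ : 0 ≤ μ) (h : 1 + μ ≤ m₁ / D) :
    1 ≤ m₁ / Real.log 2 ^ 2 / D * wt μ := by
  have hl : 0 < Real.log 2 := Real.log_pos (by norm_num)
  have h1 : Real.log 2 ≤ Real.log (2 + μ) := Real.log_le_log (by norm_num) (by linarith)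
  have h2 : Real.log 2 ^ 2 ≤ Real.log (2 + μ) ^ 2 := pow_le_pow_left₀ hl.le h1 2
  have h3 : Real.log 2 ^ 2 / (m₁ / D) ≤ wt μ := by
    unfold wt
    have : 0 < 1 + μ := by linarith
    have h4 : 0 < m₁ / D := by positivity
    calc Real.log 2 ^ 2 / (m₁ / D) ≤ Real.log (2 + μ) ^ 2 / (m₁ / D) := by gcongr
      _ ≤ Real.log (2 + μ) ^ 2 / (1 + μ) := by gcongr
  calc (1 : ℝ) = m₁ / Real.log 2 ^ 2 / D * (Real.log 2 ^ 2 / (m₁ / D)) := by field_simp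
    _ ≤ _ := mul_le_mul_of_nonneg_left h3 (by positivity)

theorem EKY_BB (κ₁ : ℝ → ℝ) (η c : ℝ) (f : ℍ → ℝ) :
    BB κ₁ η (fun z => c * f z) = fun z => c * BB κ₁ η f z := by
  have h : ∀ g : ℍ → ℝ, conv (fm κ₁ η) (fun z => c * g z) = fun z => c * conv (fm κ₁ η) g z := by
    intro g
    funext z
    unfold conv
    rw [← integral_const_mul]
    refine integral_congr_ae (Eventually.of_forall fun w => ?_)
    simp only [smul_eq_mul]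
    ring
  unfold BB
  rw [h f, h]

theorem EKY_cont {g : ℍ → ℝ} {C : ℝ} (hg : FB g C) : Continuous g :=
  ((A_CA1 ℝ).1 g).1 ((A_CA1 ℝ).2.1 g 0 2 (by norm_num) hg.1)

/-- the last step for small `μ` -/
theorem EKY_fin (A₁ A₃ m₁ δ a n w X Y D1 D2 D : ℝ) (hA₁ : 1 ≤ A₁) (hA₃ : 1 ≤ A₃)
    (hn : 0 ≤ n) (hD1 : 0 < D1) (hD2 : 0 < D2) (hD : D = D1 * D2) (hXY : X ≤ Y / D1) (hY : 0 ≤ Y)
    (hw : 1 ≤ m₁ / Real.log 2 ^ 2 / D2 * w) :
    A₁ * (δ / (4 * A₁) * a + A₃ * X * n) ≤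
      δ / 4 * a + A₁ * A₃ * Y * m₁ / Real.log 2 ^ 2 / D * w * n := by
  have hA₁' : 0 < A₁ := by linarith
  have hA₃' : 0 < A₃ := by linarith
  have hl : 0 < Real.log 2 := Real.log_pos (by norm_num)
  rw [hD]
  have h1 : A₁ * A₃ * X * n ≤ A₁ * A₃ * (Y / D1) * n := by gcongr
  have h2 : A₁ * A₃ * (Y / D1) * n * 1 ≤ A₁ * A₃ * (Y / D1) * n * (m₁ / Real.log 2 ^ 2 / D2 * w) :=
    mul_le_mul_of_nonneg_left hw (by positivity)
  calc A₁ * (δ / (4 * A₁) * a + A₃ * X * n) = δ / 4 * a + A₁ * A₃ * X * n := by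
        field_simp
    _ ≤ δ / 4 * a + A₁ * A₃ * (Y / D1) * n * (m₁ / Real.log 2 ^ 2 / D2 * w) := by linarith
    _ = _ := by
        field_simp

theorem EKY_X0 (q m₁ A₁ μ η δ : ℝ) (hμ : 0 ≤ μ) (hm : 0 < m₁) (hA : 0 < A₁) (hδ : 0 < δ)
    (hη : η = (δ / (4 * A₁)) ^ 2) (hq : q = (1 + μ) / (η * (δ / (4 * A₁))))
    (h3 : 1 + μ ≤ m₁ / δ ^ 22) : 0 ≤ q ∧ q ≤ m₁ * (4 * A₁) ^ 3 / δ ^ 25 := by
  have e2 : η * (δ / (4 * A₁)) = δ ^ 3 / (4 * A₁) ^ 3 := by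
    rw [hη]
    field_simp
  have h0 : 0 < 1 + μ := by linarith
  rw [hq, e2]
  refine ⟨by positivity, ?_⟩
  calc (1 + μ) / (δ ^ 3 / (4 * A₁) ^ 3) ≤ m₁ / δ ^ 22 / (δ ^ 3 / (4 * A₁) ^ 3) := by
        gcongr
    _ = _ := by
        field_simp

theorem EKY_X (q m δ Y D1 : ℝ) (hq0 : 0 ≤ q) (hq : q ≤ m / δ ^ 25) (hY : Y = m ^ 100)
    (hD : D1 = δ ^ 2500) : q ^ 100 ≤ Y / D1 := by
  refine (pow_le_pow_left₀ hq0 hq 100).trans (le_of_eq ?_)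
  rw [div_pow, ← pow_mul, hY, hD]

theorem EKY_pow (δ : ℝ) (hδ : 0 < δ) (hδ1 : δ ≤ 1) :
    ∃ D D1 : ℝ, D = δ ^ 2522 ∧ D1 = δ ^ 2500 ∧ 0 < D ∧ 0 < D1 ∧ D = D1 * δ ^ 22 ∧ D ≤ δ ^ 43 :=
  ⟨δ ^ 2522, δ ^ 2500, rfl, rfl, pow_pos hδ _, pow_pos hδ _, by rw [← pow_add],
    pow_le_pow_of_le_one hδ.le hδ1 (by norm_num)⟩

theorem EKY_h3 (b δ D : ℝ) (hb0 : 0 ≤ b) (hδ : 0 < δ) (hδ1 : δ ≤ 1) (hD : 0 < D)
    (hD43 : D ≤ δ ^ 43) :
    1024 * (b / δ ^ 10 + 1) ^ 4 / δ ^ 3 ≤ 1024 * (b + 1) ^ 4 / D := by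
  have e1 : b / δ ^ 10 + 1 ≤ (b + 1) / δ ^ 10 := by
    rw [add_div]
    have : 1 ≤ 1 / δ ^ 10 := by
      rw [le_div_iff₀ (by positivity), one_mul]
      exact pow_le_one₀ hδ.le hδ1
    linarith
  have e2 : (b / δ ^ 10 + 1) ^ 4 ≤ ((b + 1) / δ ^ 10) ^ 4 :=
    pow_le_pow_left₀ (by positivity) e1 4
  have e3 : ((b + 1) / δ ^ 10) ^ 4 = (b + 1) ^ 4 / δ ^ 40 := by
    rw [div_pow, ← pow_mul]
  calc 1024 * (b / δ ^ 10 + 1) ^ 4 / δ ^ 3 ≤ 1024 * ((b + 1) ^ 4 / δ ^ 40) / δ ^ 3 := by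
        rw [← e3]
        gcongr
    _ = 1024 * (b + 1) ^ 4 / δ ^ 43 := by
        field_simp
    _ ≤ 1024 * (b + 1) ^ 4 / D := by
        gcongr

/-- **EKY** -/
theorem EKY (hBMP : BMP_stmt) (hEGB : EGB_stmt) (hEDC : EDC_stmt) (hEHI : EHI_stmt)
    (hELO : ELO_stmt) : EKY_stmt := by
  obtain ⟨κ₁, C, hBF⟩ := hBMP
  obtain ⟨C₀, hC₀, hEHI⟩ := hEHI
  obtain ⟨A₂, hA₂, hEGB⟩ := hEGB κ₁ C hBF
  refine ⟨2522, fun Γ F hΓ hF => ?_⟩
  obtain ⟨A₁, hA₁, hEDC⟩ := hEDC κ₁ C hBF Γ F hΓ hF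
  obtain ⟨A₃, hA₃, hELO⟩ := hELO κ₁ C hBF Γ F hΓ hF
  have hA₁' : 0 < A₁ := by linarith
  have hA₂' : 0 < A₂ := by linarith
  have hA₃' : 0 < A₃ := by linarith
  have hl : 0 < Real.log 2 := Real.log_pos (by norm_num)
  set b : ℝ := C₀ * (A₂ * (4 * A₁) ^ 10 * A₁) with hb
  have hb0 : 0 ≤ b := by positivity
  set m₁ : ℝ := 9 / 4 + 64 * b ^ 2 with hm₁
  have hm₁0 : 0 < m₁ := by positivity
  obtain ⟨Y, hYdef, hY0⟩ : ∃ Y : ℝ, Y = (m₁ * (4 * A₁) ^ 3) ^ 100 ∧ 0 ≤ Y :=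
    ⟨_, rfl, pow_nonneg (by positivity) _⟩
  set Z : ℝ := A₁ * A₃ * Y * m₁ / Real.log 2 ^ 2 with hZ
  have hZ0 : 0 ≤ Z := by positivity
  refine ⟨1 + 1024 * (b + 1) ^ 4 + Z, by
    have : 0 ≤ 1024 * (b + 1) ^ 4 := by positivity
    linarith, ?_⟩
  intro h hh δ hδ hδ1 μ u hμ hu hus
  obtain ⟨D, D1, hDe, hD1e, hDp, hD1p, hDD, hD43⟩ := EKY_pow δ hδ hδ1
  rw [← hDe]
  have huc : Continuous u := ((A_CA1 ℝ).1 u).1 ((A_CA1 ℝ).2.1 u 0 ∞ bot_le hu)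
  set a : ℝ := ∫ z : ℍ, u z ^ 2 with ha
  set n : ℝ := ∫ z : ℍ, (lap u z - μ * u z) ^ 2 with hn
  have ha0 : 0 ≤ a := integral_nonneg fun z => sq_nonneg _
  have hn0 : 0 ≤ n := integral_nonneg fun z => sq_nonneg _
  set η : ℝ := (δ / (4 * A₁)) ^ 2 with hη
  have hη0 : 0 < η := by positivity
  have hη' : δ / (4 * A₁) ≤ 1 := by
    rw [div_le_one (by positivity)]
    linarith
  have hη1 : η ≤ 1 := pow_le_one₀ (by positivity) hη'
  have hsη : Real.sqrt η = δ / (4 * A₁) := Real.sqrt_sq (by positivity)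
  obtain ⟨g₀, hg₀, hg₀', hg₀''⟩ := hEDC h hh η hη0 hη1
  rw [hsη] at hg₀''
  have hAδ : A₁ * (δ / (4 * A₁)) = δ / 4 := by field_simp
  rw [hAδ] at hg₀''
  obtain ⟨-, hFB, hFBl⟩ := hEGB η g₀ A₁ hη0 hη1 hg₀.1 hg₀'
  set Cg : ℝ := A₂ / η ^ 5 * A₁ with hCg
  have hB : C₀ * Cg = b / δ ^ 10 := by
    rw [hCg, hη, hb]
    field_simp
  have hlc := EKY_cont hFBl
  -- reduction to `lap (BB g₀)`
  have hred : ∫ z : ℍ, h z * u z ^ 2 ≤ (∫ z : ℍ, lap (BB κ₁ η g₀) z * u z ^ 2) + δ / 4 * a := by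
    have hu2 : HasCompactSupport fun z => u z ^ 2 := by
      have : (fun z => u z ^ 2) = fun z => u z * u z := by
        funext z
        ring
      rw [this]
      exact hus.mul_right
    have i1 : Integrable fun z : ℍ => h z * u z ^ 2 :=
      (hh.Inv.1.mul (huc.pow 2)).integrable_of_hasCompactSupport hu2.mul_left
    have i2 : Integrable fun z : ℍ => lap (BB κ₁ η g₀) z * u z ^ 2 :=
      (hlc.mul (huc.pow 2)).integrable_of_hasCompactSupport hu2.mul_left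
    have i3 : Integrable fun z : ℍ => u z ^ 2 := (huc.pow 2).integrable_of_hasCompactSupport hu2
    rw [ha, ← integral_const_mul, ← integral_add i2 (i3.const_mul _)]
    refine integral_mono i1 (i2.add (i3.const_mul _)) fun z => ?_
    have h1 := (abs_le.1 (hg₀'' z)).2
    have h2 : 0 ≤ u z ^ 2 := sq_nonneg _
    show h z * u z ^ 2 ≤ lap (BB κ₁ η g₀) z * u z ^ 2 + δ / 4 * u z ^ 2
    calc h z * u z ^ 2 ≤ (lap (BB κ₁ η g₀) z + δ / 4) * u z ^ 2 :=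
          mul_le_mul_of_nonneg_right (by linarith) h2
      _ = _ := by ring
  have hwt0 : 0 ≤ wt μ := by
    unfold wt
    have : 0 < 1 + μ := by linarith
    positivity
  have hmain : |∫ z : ℍ, lap (BB κ₁ η g₀) z * u z ^ 2| ≤
      δ / 4 * a + (1 + 1024 * (b + 1) ^ 4 + Z) / D * wt μ * n := by
    have hmono : ∀ x : ℝ, 0 ≤ x → x ≤ 1 + 1024 * (b + 1) ^ 4 + Z →
        x / D * wt μ * n ≤ (1 + 1024 * (b + 1) ^ 4 + Z) / D * wt μ * n := by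
      intro x _ hx
      refine mul_le_mul_of_nonneg_right (mul_le_mul_of_nonneg_right ?_ hwt0) hn0
      exact div_le_div_of_nonneg_right hx hDp.le
    rcases le_total (5 / 4 + (8 * (C₀ * Cg) / δ) ^ 2) μ with hc | hc
    · have hμ1 : 5 / 4 ≤ μ := by
        have := sq_nonneg (8 * (C₀ * Cg) / δ)
        linarith
      have h1 := hEHI (BB κ₁ η g₀) Cg hFB hFBl u μ hμ1 hu hus
      have hCg0 : 0 ≤ Cg := by positivity
      have h2 := EKY_hi (C₀ * Cg) δ a n μ (Real.log (2 + μ)) (mul_nonneg hC₀ hCg0) hδ ha0 hn0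
        (Real.log_nonneg (by linarith)) hc
      refine (h1.trans h2).trans ?_
      have h3 : 1024 * (C₀ * Cg + 1) ^ 4 / δ ^ 3 ≤ 1024 * (b + 1) ^ 4 / D := by
        rw [hB]
        exact EKY_h3 b δ D hb0 hδ hδ1 hDp hD43
      have h4 : 1024 * (C₀ * Cg + 1) ^ 4 / δ ^ 3 * (Real.log (2 + μ) ^ 2 / (1 + μ)) * n ≤
          1024 * (b + 1) ^ 4 / D * wt μ * n := by
        refine mul_le_mul_of_nonneg_right ?_ hn0
        exact mul_le_mul_of_nonneg_right h3 hwt0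
      have h5 := hmono (1024 * (b + 1) ^ 4) (by positivity) (by linarith)
      linarith
    · set g₁ : ℍ → ℝ := fun z => A₁⁻¹ * g₀ z with hg₁
      have hg01 : g₀ = fun z => A₁ * g₁ z := by
        funext z
        rw [hg₁]
        field_simp
      have hg₁I : Inv Γ g₁ := ⟨continuous_const.mul hg₀.1, fun γ z => by
        rw [hg₁]
        simp only
        rw [hg₀.2 γ z]⟩
      have hg₁1 : ∀ z, |g₁ z| ≤ 1 := by
        intro z
        rw [hg₁]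
        simp only
        rw [abs_mul, abs_of_pos (inv_pos.2 hA₁'), inv_mul_le_iff₀ hA₁', mul_one]
        exact hg₀' z
      obtain ⟨-, hFB1, -⟩ := hEGB η g₁ 1 hη0 hη1 hg₁I.1 hg₁1
      have hlap : ∀ z, lap (BB κ₁ η g₀) z = A₁ * lap (BB κ₁ η g₁) z := by
        intro z
        rw [hg01, EKY_BB]
        exact (FI1_lap_smul A_CA1 A_CA2 A₁ hFB1.1 z).2
      have hθ0 : 0 < δ / (4 * A₁) := by positivity
      have h1 := hELO η (δ / (4 * A₁)) μ g₁ u hη0 hη1 hθ0 hη' hμ hg₁I hg₁1 hu hus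
      have h20 : ∫ z : ℍ, lap (BB κ₁ η g₀) z * u z ^ 2 =
          A₁ * ∫ z : ℍ, lap (BB κ₁ η g₁) z * u z ^ 2 := by
        rw [← integral_const_mul]
        refine integral_congr_ae (Eventually.of_forall fun z => ?_)
        simp only
        rw [hlap z]
        ring
      have h2 : |∫ z : ℍ, lap (BB κ₁ η g₀) z * u z ^ 2| =
          A₁ * |∫ z : ℍ, lap (BB κ₁ η g₁) z * u z ^ 2| := by
        rw [h20, abs_mul, abs_of_pos hA₁']
      rw [h2]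
      have h3 := EKY_mu (C₀ * Cg) b δ μ hδ hδ1 (by positivity) hB.le hc
      obtain ⟨q, hq⟩ : ∃ q : ℝ, q = (1 + μ) / (η * (δ / (4 * A₁))) := ⟨_, rfl⟩
      obtain ⟨hq0, hq1⟩ := EKY_X0 q m₁ A₁ μ η δ hμ hm₁0 hA₁' hδ hη hq h3
      rw [← hq] at h1
      have hX : q ^ 100 ≤ Y / D1 := EKY_X q _ δ Y D1 hq0 hq1 hYdef hD1e
      generalize q ^ 100 = X at h1 hX
      have h4 := EKY_wt m₁ (δ ^ 22) μ (by positivity) hm₁0 hμ h3
      have h5 := EKY_fin A₁ A₃ m₁ δ a n (wt μ) X Y D1 (δ ^ 22) D hA₁ hA₃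
        hn0 hD1p (by positivity) hDD hX hY0 h4
      have h6 := hmono Z hZ0 (by
        have : 0 ≤ 1024 * (b + 1) ^ 4 := by positivity
        linarith)
      have h7 : A₁ * |∫ z : ℍ, lap (BB κ₁ η g₁) z * u z ^ 2| ≤ A₁ * (δ / (4 * A₁) * a +
          A₃ * X * n) := mul_le_mul_of_nonneg_left h1 hA₁'.le
      exact h7.trans (h5.trans (add_le_add le_rfl h6))
  have h8 := (le_abs_self _).trans hmain
  have h9 : 0 ≤ δ / 2 * a := by positivity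
  linarith

end Pool.Agent.QX
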